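import Pool.Agent.Run7.h982.BT.TransB
import Pool.Agent.Run7.h648.BT.BT
import Pool.Agent.Run7.h361.BT.FAM
import Pool.Agent.Run7.h982.BT.ASM

/-!
# MP_90d4f1_an, Q2 (type 2): the assertion is false

For every nontrivial free group `F` the reduced C*-algebra `H = C*_r(F)` (a compact quantum group;
for one generator `H` is the algebra of continuous functions on the circle group) has a free
coaction `δ` on a non-zero unital C*-algebra `A` such that there is an equivariant unital star
homomorphism from `(H, Δ)` to the equivariant noncommutative join `(A *_δ H, δ_Δ)`.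

Proof. `A = B ⊗ H`, `δ = id ⊗ Δ`, where `B` contains isometries `s, t` with `s s* + t t* = 1`. A
unitary `z ∈ A` which commutes with `s, t` is joined to `1` by a path of unitaries of `A`: let
`Z(p) = 1 - p + p z` and `p = s s*`, `q = t t*`; then `Z(p)` and `Z(q)` are joined by a path (rotation
by `t s*`), so is `Z(p) = Z(s s s* s*) Z(s t t* s*)` to `Z(q)²`, so `Z(q)`, `Z(p)` and `z = Z(p) Z(q)`
are joined to `1`. With `z = 1 ⊗ λ_x` for the generators `x` of `F` this gives a path `ρ_t` of
homomorphisms `F → U(A)` from the trivial one to `g ↦ 1 ⊗ λ_g`, and `λ_g ↦ ρ_t(g) ⊗ λ_g` extends to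
`H` by Fell's absorption principle. The values at `0` are in `ℂ ⊗ H` and the values at `1` in `δ(A)`.

The definitions of compact quantum groups, coactions, freeness and the join are the ones of the
starting file `TypeOneFails` (`Pool.Agent.W744.BU.Fin`).

Authors: helper982 (proof, statements, transport, `FELL`, `ASM`), helper648 (`CUNTZ`, `ROT`,
`PATH`), helper361 (`FAM`), helper409 (an independent copy of `FELL`), and the authors of the
library `Pool.Agent.W744.BU`.
-/

set_option autoImplicit false

namespace Pool.Agent.Results.MP_90d4f1_an.TypeTwoFails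

open Pool.Agent.W744.BU.Fin Pool.Agent.Run7.h982.BT

/-- **The type 2 assertion is false.** For every nontrivial free group the compact quantum group
`Q = (H, Δ)` given by its reduced C*-algebra has a free coaction `α` on a non-zero unital
C*-algebra and an equivariant unital star homomorphism from `(H, Δ)` to the equivariant join. -/
theorem result (S : Type) [Nonempty S] : ∃ (Q : CQG) (α : Coaction Q),
    IsRedF (FreeGroup S) Q ∧ Q.NonTrivial ∧ Nonempty α.J ∧ α.Free ∧
      ∃ φ : Op Q.I → unitInterval → Op (α.J × Q.I), IsJoinMap2 α φ := by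
  obtain ⟨K, hK, w, ρ, hF⟩ := Pool.Agent.Run7.h361.BT.FAM _root_.Run7.h648.BT.t_CUNTZ
    (_root_.Run7.h648.BT.t_PATH _root_.Run7.h648.BT.t_ROT) S
  have hnt : Nontrivial (FreeGroup S) := by
    obtain ⟨x⟩ := ‹Nonempty S›
    exact ⟨⟨FreeGroup.of x, 1, FreeGroup.of_ne_one x⟩⟩
  exact transB (t_ASM (FreeGroup S) K w ρ hF)

end Pool.Agent.Results.MP_90d4f1_an.TypeTwoFails
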